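import Pool.Agent.H557R2.Mve.Red

/-!
# Shortest Path Most Vital Edges is W[1]-hard for the number of deleted edges

Reduction from `p-Clique` with budget `3 k ^ 2`.  For every position `(i, j)` of a `k` by `k` torus
there are three long directed chains, which have to be cut exactly once each; the places of the
cuts encode numbers `n * a`, `b` and `c`, and walks through the three chains force
`n * a i j + b i j ≥ c i j ≥ n * a i (j+1) + b (i+1) j`.  Summing over the torus gives equality
everywhere, so rows and columns carry constant values, and the third chain at `(i, j)` may only
be cut at places `n * u + v` with `u = v` (if `i = j`) or `u` adjacent to `v`.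
All arcs are subdivided into unit edges.
-/

namespace Pool.Agent.Results.MP_40aef2_lc.WOneHard

open Pool.Agent.H557R2.Fpt Pool.Agent.H557R2.Mve

theorem result : W1Hard spMVE ∧ W1Hard spMVEUnit := ⟨w1Hard_spMVE, w1Hard_spMVEUnit⟩

end Pool.Agent.Results.MP_40aef2_lc.WOneHard
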